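import Pool.Agent.helper88.RL.SpecW

set_option autoImplicit false

/-!
# RL, row VSZ: sizes
-/

namespace Pool.Agent.RL

open Finset Pool.Agent.helper3.FT Pool.Agent.T6 Pool.Agent.RF

lemma VSZ_abs_sub (x y : ℝ) : |x - y| ≤ |x| + |y| := by
  have := norm_sub_le x y
  simpa only [Real.norm_eq_abs] using this

/-- bound for `e` at one place -/
lemma VSZ_e {R L K X P E : ℝ} (hR : 0 < R) (hK : R / 2 ≤ |K|)
    (hX : |X| + |P| ≤ R ^ 3 * L) (hE : X - P = K ^ 3 * E) :
    |E| ≤ 8 * L := by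
  have h1 : (R / 2) ^ 3 * |E| ≤ |K| ^ 3 * |E| :=
    mul_le_mul_of_nonneg_right (pow_le_pow_left₀ (by positivity) hK 3) (abs_nonneg _)
  have h2 : |K| ^ 3 * |E| = |X - P| := by rw [hE, abs_mul, abs_pow]
  have h3 := VSZ_abs_sub X P
  have h4 : (R ^ 3 / 8) * |E| ≤ (R ^ 3 / 8) * (8 * L) := by
    have e1 : (R / 2) ^ 3 = R ^ 3 / 8 := by ring
    rw [e1] at h1
    linarith
  exact le_of_mul_le_mul_left h4 (by positivity)

/-- bound for `w` at one place -/
lemma VSZ_w {R L K K' X E w : ℝ} (hR : 0 < R) (hK : R / 2 ≤ |K|) (hK' : |K'| ≤ 2 * R)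
    (hX : |X| ≤ R ^ 3 * L) (hE : |E| ≤ 8 * L)
    (hw : K' ^ 3 * E - 2 * X = K ^ 2 * w) :
    |w| ≤ 264 * (R * L) := by
  have h1 : (R / 2) ^ 2 * |w| ≤ |K| ^ 2 * |w| :=
    mul_le_mul_of_nonneg_right (pow_le_pow_left₀ (by positivity) hK 2) (abs_nonneg _)
  have h2 : |K| ^ 2 * |w| = |K' ^ 3 * E - 2 * X| := by rw [hw, abs_mul, abs_pow]
  have h3 := VSZ_abs_sub (K' ^ 3 * E) (2 * X)
  have h5 : |K' ^ 3 * E| ≤ (2 * R) ^ 3 * (8 * L) := by
    rw [abs_mul, abs_pow]
    exact mul_le_mul (pow_le_pow_left₀ (abs_nonneg _) hK' 3) hE (abs_nonneg _) (by positivity)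
  have h6 : |2 * X| = 2 * |X| := by rw [abs_mul, abs_of_pos (by norm_num : (0:ℝ) < 2)]
  have h4 : (R ^ 2 / 4) * |w| ≤ (R ^ 2 / 4) * (264 * (R * L)) := by
    have e1 : (R / 2) ^ 2 = R ^ 2 / 4 := by ring
    rw [e1] at h1
    have e2 : (R ^ 2 / 4) * (264 * (R * L)) =
      (2 * R) ^ 3 * (8 * L) + 2 * (R ^ 3 * L) := by ring
    rw [e2]
    linarith
  exact le_of_mul_le_mul_left h4 (by positivity)

/-- bound for `z` at one place -/
lemma VSZ_z {R L G K f g g' w w' z : ℝ} (hR : 0 < R) (hK : R / 2 ≤ |K|)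
    (hG : 0 ≤ G) (hf : |f| ≤ 2)
    (hg : |g| ≤ 2 * G) (hg' : |g'| ≤ 2 * G) (hw : |w| ≤ 264 * (R * L)) (hw' : |w'| ≤ 264 * (R * L))
    (hz : g' * w + 2 * f * g * w' = K * z) :
    |z| ≤ 5280 * (G * L) := by
  have h1 : (R / 2) * |z| ≤ |K| * |z| := mul_le_mul_of_nonneg_right hK (abs_nonneg _)
  have h2 : |K| * |z| = |g' * w + 2 * f * g * w'| := by rw [hz, abs_mul]
  have h3 := abs_add_le (g' * w) (2 * f * g * w')
  have h5 : |g' * w| ≤ (2 * G) * (264 * (R * L)) := by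
    rw [abs_mul]
    exact mul_le_mul hg' hw (abs_nonneg _) (by positivity)
  have h6 : |2 * f * g * w'| ≤ (2 * 2 * (2 * G)) * (264 * (R * L)) := by
    rw [abs_mul, abs_mul, abs_mul, abs_of_pos (by norm_num : (0:ℝ) < 2)]
    refine mul_le_mul ?_ hw' (abs_nonneg _) (by positivity)
    exact mul_le_mul (mul_le_mul_of_nonneg_left hf (by norm_num)) hg (abs_nonneg _) (by norm_num)
  have h4 : (R / 2) * |z| ≤ (R / 2) * (5280 * (G * L)) := by
    have e2 : (R / 2) * (5280 * (G * L)) =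
      (2 * G) * (264 * (R * L)) + (2 * 2 * (2 * G)) * (264 * (R * L)) := by ring
    rw [e2]
    linarith
  exact le_of_mul_le_mul_left h4 (by positivity)

lemma VSZ_ph : |va ph| ≤ 2 ∧ |vb ph| ≤ 2 := by
  have h1 : (0 : ℝ) ≤ √5 := Real.sqrt_nonneg 5
  have h2 : √5 ≤ 3 := by
    rw [Real.sqrt_le_left (by norm_num)]
    norm_num
  have e1 : va ph = (1 + √5) / 2 := by simp [va, ph]
  have e2 : vb ph = (1 - √5) / 2 := by simp [vb, ph]
  rw [e1, e2, abs_le, abs_le]
  refine ⟨⟨?_, ?_⟩, ?_, ?_⟩ <;> linarith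

theorem VSZ (h1 : WVA_stmt) : VSZ_stmt := by
  obtain ⟨hma, hmb, had, hin, hst, hno, -⟩ := h1
  refine ⟨5280, by norm_num, ?_⟩
  intro Q H G X₁ X₂ k g U P e w z hKG hQ hG hX₁ hX₂ hga hgb hUa hUb hPa hPb he hw hz
  have hQr : (1 : ℝ) ≤ Q := by exact_mod_cast hQ
  set R : ℝ := √(Q : ℝ) with hRdef
  have hR2 : R ^ 2 = Q := Real.sq_sqrt (by linarith)
  have hR0 : 0 < R := Real.sqrt_pos.2 (by linarith)
  have hQ32 : (Q : ℝ) ^ (3 / 2 : ℝ) = R ^ 3 := by
    rw [← hR2, ← Real.rpow_natCast R 2, ← Real.rpow_mul hR0.le, ← Real.rpow_natCast R 3]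
    congr 1
    push_cast
    norm_num
  rw [hQ32]
  set q : ℕ := k.norm.natAbs with hqdef
  have hqQ : (Q : ℝ) < q := by exact_mod_cast hKG.lo
  have hq0 : (0 : ℝ) < q := by linarith
  have hqab : |va k| * |vb k| = q := by
    rw [← abs_mul, hno, hqdef, Nat.cast_natAbs, Int.cast_abs]
  -- lower bounds for k
  have hak : R / 2 ≤ |va k| := by
    by_contra hcon
    push Not at hcon
    have h1 : |va k| * |vb k| ≤ (R / 2) * (2 * R) :=
      mul_le_mul hcon.le hKG.bb (abs_nonneg _) (by positivity)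
    nlinarith
  have hbk : R / 2 ≤ |vb k| := by
    by_contra hcon
    push Not at hcon
    have h1 : |va k| * |vb k| ≤ (2 * R) * (R / 2) :=
      mul_le_mul hKG.ba hcon.le (abs_nonneg _) (by positivity)
    nlinarith
  set L : ℝ := (H * X₁ + X₂) / R ^ 3 with hLdef
  have hL0 : 0 ≤ L := by positivity
  have hRL : R ^ 3 * L = H * X₁ + X₂ := by
    rw [hLdef]
    field_simp
  have hXa : |(H : ℝ) * va U| ≤ H * X₁ := by
    rw [abs_mul, Nat.abs_cast]
    exact mul_le_mul_of_nonneg_left hUa (by positivity)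
  have hXb : |(H : ℝ) * vb U| ≤ H * X₁ := by
    rw [abs_mul, Nat.abs_cast]
    exact mul_le_mul_of_nonneg_left hUb (by positivity)
  -- casts
  have hna : va ((H : ℕ) : OO) = H := by
    have := (hin (H : ℤ)).1
    push_cast at this
    exact this
  have hnb : vb ((H : ℕ) : OO) = H := by
    have := (hin (H : ℤ)).2
    push_cast at this
    exact this
  have h2a : va (2 : OO) = 2 := by
    have := (hin 2).1
    push_cast at this
    exact this
  have h2b : vb (2 : OO) = 2 := by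
    have := (hin 2).2
    push_cast at this
    exact this
  have hpowa : ∀ (x : OO) (n : ℕ), va (x ^ (n + 1)) = va x ^ (n + 1) := by
    intro x n
    induction n with
    | zero => rw [zero_add, pow_one, pow_one]
    | succ n ih => rw [pow_succ, hma, ih, ← pow_succ]
  have hpowb : ∀ (x : OO) (n : ℕ), vb (x ^ (n + 1)) = vb x ^ (n + 1) := by
    intro x n
    induction n with
    | zero => rw [zero_add, pow_one, pow_one]
    | succ n ih => rw [pow_succ, hmb, ih, ← pow_succ]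
  -- e
  have hea : (H : ℝ) * va U - va P = va k ^ 3 * va e := by
    have := congrArg va he
    rw [(had _ _).2.1, hma, hna, hma, hpowa] at this
    exact this
  have heb : (H : ℝ) * vb U - vb P = vb k ^ 3 * vb e := by
    have := congrArg vb he
    rw [(had _ _).2.2.2, hmb, hnb, hmb, hpowb] at this
    exact this
  have hEa := VSZ_e hR0 hak (hRL ▸ add_le_add hXa hPa) hea
  have hEb := VSZ_e hR0 hbk (hRL ▸ add_le_add hXb hPb) heb
  have hXa' : |(H : ℝ) * va U| ≤ R ^ 3 * L := by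
    rw [hRL]
    linarith
  have hXb' : |(H : ℝ) * vb U| ≤ R ^ 3 * L := by
    rw [hRL]
    linarith
  -- w
  have hwa : vb k ^ 3 * vb e - 2 * ((H : ℝ) * vb U) = va k ^ 2 * va w := by
    have := congrArg va hw
    rw [(had _ _).2.1, hma, hpowa, (hst _).1, (hst _).1, hma, hma, h2a, hna,
      (hst _).1, hma, hpowa] at this
    rw [← this]
    ring
  have hwb : va k ^ 3 * va e - 2 * ((H : ℝ) * va U) = vb k ^ 2 * vb w := by
    have := congrArg vb hw
    rw [(had _ _).2.2.2, hmb, hpowb, (hst _).2, (hst _).2, hmb, hmb, h2b, hnb,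
      (hst _).2, hmb, hpowb] at this
    rw [← this]
    ring
  have hWa := VSZ_w hR0 hak hKG.bb hXb' hEb hwa
  have hWb := VSZ_w hR0 hbk hKG.ba hXa' hEa hwb
  -- z
  have hza : vb g * va w + 2 * va ph * va g * vb w = va k * va z := by
    have := congrArg va hz
    rw [(had _ _).1, hma, (hst _).1, hma, hma, hma, h2a, (hst _).1, hma] at this
    exact this
  have hzb : va g * vb w + 2 * vb ph * vb g * va w = vb k * vb z := by
    have := congrArg vb hz
    rw [(had _ _).2.2.1, hmb, (hst _).2, hmb, hmb, hmb, h2b, (hst _).2, hmb] at this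
    exact this
  obtain ⟨hph1, hph2⟩ := VSZ_ph
  have hZa := VSZ_z hR0 hak (by linarith) hph1 hga hgb hWa hWb hza
  have hZb := VSZ_z hR0 hbk (by linarith) hph2 hgb hga hWb hWa hzb
  refine ⟨hEa.trans ?_, hEb.trans ?_, hZa, hZb⟩ <;> linarith

end Pool.Agent.RL
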